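import Mathlib

set_option autoImplicit false

/-!
Sets of integers of density zero: recurrence and irrational rotations.
-/

namespace Pool.Agent.MP_60c1b5_an.H93

open Filter Topology MeasureTheory

/-- the number of elements of `H` below `N` -/
noncomputable def cnt (H : Set ℕ) (N : ℕ) : ℝ :=
  ∑ h ∈ Finset.range N, H.indicator (fun _ => (1 : ℝ)) h

/-- density zero -/
def DZ (H : Set ℕ) : Prop := Tendsto (fun N : ℕ => cnt H N / N) atTop (𝓝 0)

theorem ind_nonneg (H : Set ℕ) (h : ℕ) : 0 ≤ H.indicator (fun _ => (1 : ℝ)) h :=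
  Set.indicator_nonneg (fun _ _ => zero_le_one) h

theorem ind_le (H : Set ℕ) (h : ℕ) : H.indicator (fun _ => (1 : ℝ)) h ≤ 1 := by
  by_cases e : h ∈ H <;> simp [e]

theorem cnt_nonneg (H : Set ℕ) (N : ℕ) : 0 ≤ cnt H N :=
  Finset.sum_nonneg fun h _ => ind_nonneg H h

theorem cnt_le (H : Set ℕ) (N : ℕ) : cnt H N ≤ N := by
  refine (Finset.sum_le_sum fun h _ => ind_le H h).trans ?_
  simp

theorem cnt_mono {H H' : Set ℕ} (h : H ⊆ H') (N : ℕ) : cnt H N ≤ cnt H' N :=
  Finset.sum_le_sum fun k _ => Set.indicator_le_indicator_of_subset h (fun _ => zero_le_one) k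

theorem cnt_shift (H : Set ℕ) (k N : ℕ) : cnt H N ≤ k + cnt {h | h + k ∈ H} N := by
  have h1 : cnt H N ≤ cnt H (k + N) :=
    Finset.sum_le_sum_of_subset_of_nonneg (Finset.range_mono (by omega))
      fun h _ _ => ind_nonneg H h
  have h2 : cnt H (k + N) = cnt H k + cnt {h | h + k ∈ H} N := by
    unfold cnt
    rw [Finset.sum_range_add]
    congr 1
    refine Finset.sum_congr rfl fun h _ => ?_
    by_cases e : h + k ∈ H
    · have e' : k + h ∈ H := by rwa [add_comm]
      simp [e, e']
    · have e' : k + h ∉ H := by rwa [add_comm]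
      simp [e, e']
  linarith [cnt_le H k]

theorem DZ.of_le {H : Set ℕ} (h : ∀ η : ℝ, 0 < η → ∃ L : ℝ, ∀ N : ℕ, cnt H N ≤ η * N + L) :
    DZ H := by
  rw [DZ, tendsto_order]
  refine ⟨fun a ha => Eventually.of_forall fun N => ha.trans_le (div_nonneg (cnt_nonneg _ _)
    (Nat.cast_nonneg _)), fun a ha => ?_⟩
  obtain ⟨L, hL⟩ := h (a / 2) (by positivity)
  have h1 := (tendsto_const_div_atTop_nhds_zero_nat L).eventually
    (gt_mem_nhds (show (0 : ℝ) < a / 2 by positivity))
  filter_upwards [h1, eventually_gt_atTop 0] with N h2 h3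
  have h4 : (0 : ℝ) < N := by exact_mod_cast h3
  rw [div_lt_iff₀ h4] at h2 ⊢
  linarith [hL N]

theorem DZ.mono {H H' : Set ℕ} (h : H ⊆ H') (h' : DZ H') : DZ H :=
  squeeze_zero (fun _ => div_nonneg (cnt_nonneg _ _) (Nat.cast_nonneg _))
    (fun N => div_le_div_of_nonneg_right (cnt_mono h N) (Nat.cast_nonneg _)) h'

theorem DZ.shift {H : Set ℕ} (k : ℕ) (h' : DZ {h | h + k ∈ H}) : DZ H := by
  have h1 := (tendsto_const_div_atTop_nhds_zero_nat (k : ℝ)).add h'
  rw [add_zero] at h1
  refine squeeze_zero (fun N => div_nonneg (cnt_nonneg _ _) (Nat.cast_nonneg _)) (fun N => ?_) h1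
  rw [← add_div]
  exact div_le_div_of_nonneg_right (cnt_shift H k N) (Nat.cast_nonneg _)

theorem cnt_eq {Y : Type} (f : ℕ → Y) (E : Set Y) (N : ℕ) :
    cnt {h | f h ∈ E} N = ∑ h ∈ Finset.range N, E.indicator (fun _ => (1 : ℝ)) (f h) := by
  refine Finset.sum_congr rfl fun h _ => ?_
  by_cases e : f h ∈ E <;> simp [e]

theorem integral_cnt {Y : Type} [MeasurableSpace Y] (μ : Measure Y) [IsFiniteMeasure μ]
    (f : ℕ → Y → Y) (hf : ∀ h, MeasurePreserving (f h) μ μ) {E : Set Y} (hE : MeasurableSet E)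
    (N : ℕ) : ∫ y, cnt {h | f h y ∈ E} N ∂μ = N * μ.real E := by
  simp only [cnt_eq fun h => f h _]
  have e : ∀ h, (fun y => E.indicator (fun _ => (1 : ℝ)) (f h y)) =
      (f h ⁻¹' E).indicator fun _ => (1 : ℝ) := fun h => by
    funext y
    by_cases e : f h y ∈ E <;> simp [e]
  rw [integral_finsetSum]
  · simp only [e]
    rw [Finset.sum_congr rfl fun h _ => integral_indicator_const (1 : ℝ) ((hf h).measurable hE)]
    simp only [measureReal_def, (hf _).measure_preimage hE.nullMeasurableSet]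
    simp
  · intro h _
    rw [e]
    exact (integrable_const _).indicator ((hf h).measurable hE)

theorem measurable_cnt {Y : Type} [MeasurableSpace Y] (f : ℕ → Y → Y)
    (hf : ∀ h, Measurable (f h)) {E : Set Y} (hE : MeasurableSet E) (N : ℕ) :
    Measurable fun y => cnt {h | f h y ∈ E} N := by
  simp only [cnt_eq fun h => f h _]
  exact Finset.measurable_sum _ fun h _ => (measurable_const.indicator hE).comp (hf h)

/-- Almost every point of a measurable set returns to it along a set that is not of density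
zero. -/
theorem ae_not_DZ {Y : Type} [MeasurableSpace Y] (μ : Measure Y) [IsFiniteMeasure μ]
    {S : Y → Y} (hS : MeasurePreserving S μ μ) {E : Set Y} (hE : MeasurableSet E) :
    ∀ᵐ y ∂μ, y ∈ E → ¬ DZ {h | S^[h] y ∈ E} := by
  set W : Set Y := E ∩ {y | DZ {h | S^[h] y ∈ E}} with hW
  have hm : ∀ h, Measurable (S^[h]) := fun h => (hS.iterate h).measurable
  have hWm : MeasurableSet W := hE.inter (measurableSet_tendsto _ fun N =>
    (measurable_cnt (fun h => S^[h]) hm hE N).div_const _)
  have h1 : ∀ y, DZ {h | S^[h] y ∈ W} := by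
    intro y
    by_cases e : ∃ k, S^[k] y ∈ W
    · obtain ⟨k, hk⟩ := e
      refine DZ.mono (H' := {h | S^[h] y ∈ E}) (fun h hh => hh.1) (DZ.shift k ?_)
      have := hk.2
      simpa only [Set.mem_ofPred_eq, Function.iterate_add_apply] using this
    · push Not at e
      refine DZ.of_le fun η hη => ⟨0, fun N => ?_⟩
      rw [cnt_eq]
      simp only [Set.indicator_of_notMem (e _), Finset.sum_const_zero]
      positivity
  have h2 := tendsto_integral_of_dominated_convergence (μ := μ)
    (F := fun (N : ℕ) y => cnt {h | S^[h] y ∈ W} N / N) (f := fun _ => 0) (fun _ => 1)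
    (fun N => ((measurable_cnt (fun h => S^[h]) hm hWm N).div_const _).aestronglyMeasurable)
    (integrable_const _) (fun N => Eventually.of_forall fun y => by
      rw [Real.norm_of_nonneg (div_nonneg (cnt_nonneg _ _) (Nat.cast_nonneg _))]
      exact div_le_one_of_le₀ (cnt_le _ _) (Nat.cast_nonneg _)) (Eventually.of_forall h1)
  simp only [integral_div, integral_cnt μ (fun h => S^[h]) hS.iterate hWm, integral_zero] at h2
  have h3 : Tendsto (fun N : ℕ => (N : ℝ) * μ.real W / N) atTop (𝓝 (μ.real W)) := by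
    refine tendsto_const_nhds.congr' ?_
    filter_upwards [eventually_gt_atTop 0] with N hN
    have : (N : ℝ) ≠ 0 := by positivity
    field_simp
  have h4 : μ W = 0 := (measureReal_eq_zero_iff (measure_ne_top _ _)).1 (tendsto_nhds_unique h3 h2)
  filter_upwards [compl_mem_ae_iff.2 h4] with y hy h5 h6 using hy ⟨h5, h6⟩

/-- An irrational rotation visits a closed null set along a set of density zero. -/
theorem DZ_rot {α : UnitAddCircle} (hα : ¬ IsOfFinAddOrder α) {K : Set UnitAddCircle}
    (hK : IsClosed K) (h0 : volume K = 0) : DZ {h : ℕ | h • α ∈ K} := by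
  have hd : DenseRange fun n : ℕ => n • α :=
    denseRange_zsmul_iff_nsmul.1 (AddCircle.denseRange_zsmul_iff.2 (addOrderOf_eq_zero hα))
  refine DZ.of_le fun η hη => ?_
  have t := tendsto_measure_thickening_of_isClosed (μ := volume) (s := K)
    ⟨1, one_pos, measure_ne_top _ _⟩ hK
  rw [h0] at t
  obtain ⟨ρ, h1, h2⟩ := ((t.eventually (gt_mem_nhds (ENNReal.ofReal_pos.2 hη))).and
    self_mem_nhdsWithin).exists
  have h2 : 0 < ρ := h2
  obtain ⟨s, hs⟩ := isCompact_univ.elim_finite_subcover (fun n : ℕ => Metric.ball (n • α) ρ)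
    (fun _ => Metric.isOpen_ball) fun θ _ => by
      obtain ⟨n, hn⟩ := hd.exists_dist_lt θ h2
      exact Set.mem_iUnion.2 ⟨n, hn⟩
  refine ⟨(s.sup id : ℕ), fun N => ?_⟩
  have hm : MeasurableSet (Metric.thickening ρ K) := Metric.isOpen_thickening.measurableSet
  have h3 : ∀ θ : UnitAddCircle, cnt {h : ℕ | h • α ∈ K} N - (s.sup id : ℕ) ≤
      cnt {h : ℕ | h • α + θ ∈ Metric.thickening ρ K} N := by
    intro θ
    obtain ⟨k, hk, hθ⟩ := Set.mem_iUnion₂.1 (hs (Set.mem_univ θ))
    have a1 := cnt_shift {h : ℕ | h • α ∈ K} k N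
    have a2 : (k : ℝ) ≤ (s.sup id : ℕ) := by exact_mod_cast Finset.le_sup (f := id) hk
    have a3 := cnt_mono (H := {h | h + k ∈ {h : ℕ | h • α ∈ K}})
      (H' := {h : ℕ | h • α + θ ∈ Metric.thickening ρ K}) (fun h hh =>
        Metric.mem_thickening_iff.2 ⟨_, hh, by
          rw [add_nsmul, dist_add_left]
          exact hθ⟩) N
    linarith
  have h4 := integral_cnt (volume : Measure UnitAddCircle) (fun h θ => h • α + θ)
    (fun h => measurePreserving_add_left _ _) hm N
  have h5 : ∫ _θ : UnitAddCircle, (cnt {h : ℕ | h • α ∈ K} N - (s.sup id : ℕ)) ≤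
      ∫ θ : UnitAddCircle, cnt {h : ℕ | h • α + θ ∈ Metric.thickening ρ K} N := by
    refine integral_mono (integrable_const _) ?_ h3
    refine Integrable.of_bound (measurable_cnt (fun h θ => h • α + θ)
      (fun h => measurable_const_add _) hm N).aestronglyMeasurable N
      (Eventually.of_forall fun θ => ?_)
    rw [Real.norm_of_nonneg (cnt_nonneg _ _)]
    exact cnt_le _ _
  rw [h4] at h5
  simp only [integral_const, measureReal_def, UnitAddCircle.measure_univ, ENNReal.toReal_one,
    one_smul] at h5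
  have h6 : ((volume : Measure UnitAddCircle) (Metric.thickening ρ K)).toReal ≤ η :=
    ENNReal.toReal_le_of_le_ofReal hη.le h1.le
  nlinarith [Nat.cast_nonneg (α := ℝ) N]

end Pool.Agent.MP_60c1b5_an.H93
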