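import Mathlib
import Pool.Agent.MP_60c1b5_an.H93.Dens

set_option autoImplicit false

/-!
Dilations of small numbers, and the recurrence lemma for families of invariant sets.
-/

namespace Pool.Agent.MP_60c1b5_an.H93

open Filter Topology MeasureTheory

theorem null_preimage {D : Set UnitAddCircle} (hD : MeasurableSet D) (h0 : volume D = 0) :
    volume ((fun s : ℝ => (s : UnitAddCircle)) ⁻¹' D) = 0 := by
  rw [← Set.inter_univ (_ ⁻¹' D), ← iUnion_Ioc_intCast ℝ, Set.inter_iUnion, measure_iUnion_null_iff]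
  intro n
  have := (UnitAddCircle.measurePreserving_mk (n : ℝ)).measure_preimage hD.nullMeasurableSet
  rw [Measure.restrict_apply (AddCircle.measurable_mk' hD), h0] at this
  exact this

theorem not_fin_logb {b q : ℕ} (hb : 2 ≤ b) (hq : 2 ≤ q)
    (hi : ∀ m n : ℕ, 0 < n → b ^ m ≠ q ^ n) :
    ¬ IsOfFinAddOrder ((Real.logb b q : ℝ) : UnitAddCircle) := by
  rw [isOfFinAddOrder_iff_nsmul_eq_zero]
  rintro ⟨n, hn, h⟩
  rw [← AddCircle.coe_nsmul, AddCircle.coe_eq_zero_iff] at h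
  obtain ⟨m, hm⟩ := h
  have b1 : (1 : ℝ) < b := by exact_mod_cast hb
  have q1 : (1 : ℝ) < q := by exact_mod_cast hq
  simp only [zsmul_eq_mul, mul_one, nsmul_eq_mul] at hm
  have h1 : (0 : ℝ) ≤ m := by
    rw [hm]
    exact mul_nonneg (Nat.cast_nonneg _) (Real.logb_pos b1 q1).le
  obtain ⟨k, rfl⟩ := Int.eq_ofNat_of_zero_le (Int.cast_nonneg_iff.1 h1)
  refine hi k n hn ?_
  have : (b : ℝ) ^ k = (q : ℝ) ^ n := by
    rw [← Real.rpow_natCast, ← Int.cast_natCast k, hm, mul_comm, Real.rpow_mul (by positivity),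
      Real.rpow_logb (by positivity) b1.ne' (by positivity), Real.rpow_natCast]
  exact_mod_cast this

/-- A closed null set cannot contain the dilations of a null sequence along a set of exponents
that is not of density zero. -/
theorem DZ_dil {b q : ℕ} (hb : 2 ≤ b) (hq : 2 ≤ q) (hi : ∀ m n : ℕ, 0 < n → b ^ m ≠ q ^ n)
    {D : Set UnitAddCircle} (hD : IsClosed D) (h0 : volume D = 0) (ε : ℕ → ℝ)
    (h1 : ∀ k, ε k ≠ 0) (h2 : Tendsto ε atTop (𝓝 0)) {H : Set ℕ}
    (h3 : ∀ h ∈ H, ∀ a k : ℕ, (((q : ℝ) ^ h * (b : ℝ) ^ a * ε k : ℝ) : UnitAddCircle) ∈ D) :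
    DZ H := by
  have b1 : (1 : ℝ) < b := by exact_mod_cast hb
  have q1 : (1 : ℝ) < q := by exact_mod_cast hq
  set D' : Set UnitAddCircle := D ∪ -D with hD'
  have c1 : IsClosed D' := hD.union hD.neg
  have c2 : volume D' = 0 := measure_union_null h0 (by rw [Measure.measure_neg, h0])
  set R : Set ℝ := {s | (((b : ℝ) ^ s : ℝ) : UnitAddCircle) ∈ D'} with hR
  have c3 : IsClosed R := c1.preimage ((AddCircle.continuous_mk' 1).comp
    (continuous_const.rpow continuous_id fun _ => Or.inl (by positivity)))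
  have c4 : volume R = 0 := by
    refine measure_mono_null (t := Real.logb b '' (((fun s : ℝ => (s : UnitAddCircle)) ⁻¹' D') ∩
      Set.Ioi 0)) (fun s hs => ⟨(b : ℝ) ^ s, ⟨hs, Set.mem_Ioi.2 (by positivity)⟩,
        Real.logb_rpow (by positivity) b1.ne'⟩) ?_
    refine addHaar_image_eq_zero_of_differentiableOn_of_addHaar_eq_zero _ (fun s hs => ?_)
      (measure_mono_null Set.inter_subset_left (null_preimage c1.measurableSet c2))
    exact ((Real.differentiableAt_log (ne_of_gt hs.2)).div_const _).differentiableWithinAt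
  set τ : ℕ → ℝ := fun k => Real.logb b |ε k| with hτ
  have t1 : Tendsto τ atTop atBot := by
    refine (Real.tendsto_logb_nhdsGT_zero b1).comp (tendsto_nhdsWithin_iff.2 ⟨?_, ?_⟩)
    · simpa using h2.abs
    · exact Eventually.of_forall fun k => abs_pos.2 (h1 k)
  obtain ⟨c, -, φ, hφ, t2⟩ := isCompact_Icc.tendsto_subseq (x := fun k => Int.fract (τ k))
    fun k => (⟨Int.fract_nonneg _, (Int.fract_lt_one _).le⟩ : _ ∈ Set.Icc (0 : ℝ) 1)
  set K : Set UnitAddCircle := ((fun s : ℝ => (s : UnitAddCircle)) '' {s | s + c ∈ R}ᶜ)ᶜ with hK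
  have c5 : IsClosed {s | s + c ∈ R} := c3.preimage (continuous_add_const c)
  have c6 : IsClosed K := (QuotientAddGroup.isOpenMap_coe _ c5.isOpen_compl).isClosed_compl
  have c7 : volume K = 0 := by
    rw [← (UnitAddCircle.measurePreserving_mk 0).measure_preimage c6.nullMeasurableSet]
    refine le_antisymm ((Measure.restrict_le_self _).trans (le_of_eq ?_)) bot_le
    refine measure_mono_null (t := {s | s + c ∈ R}) (fun s hs => ?_) ?_
    · by_contra e
      exact hs ⟨s, e, rfl⟩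
    · exact (measure_preimage_add_right volume c R).trans c4
  refine DZ.mono (fun h hh => ?_) (DZ_rot (not_fin_logb hb hq hi) c6 c7)
  rintro ⟨s, e1, e2⟩
  rw [← AddCircle.coe_nsmul] at e2
  have e3 := sub_eq_zero.2 e2
  rw [← AddCircle.coe_sub, AddCircle.coe_eq_zero_iff] at e3
  obtain ⟨m, hm⟩ := e3
  simp only [zsmul_eq_mul, mul_one, nsmul_eq_mul] at hm
  refine e1 (c3.mem_of_tendsto (t2.const_add s) ?_)
  filter_upwards [(t1.comp hφ.tendsto_atTop).eventually_le_atBot (m : ℝ)] with k hk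
  have hk : τ (φ k) ≤ m := hk
  obtain ⟨a, ha⟩ := Int.eq_ofNat_of_zero_le (a := m - ⌊τ (φ k)⌋)
    (sub_nonneg.2 (by simpa using Int.floor_le_floor hk))
  have ha : (m : ℝ) - ⌊τ (φ k)⌋ = a := by exact_mod_cast ha
  have e4 : s + Int.fract (τ (φ k)) = Real.logb b q * h + a + τ (φ k) := by
    rw [Int.fract]; linarith
  have e5 : (b : ℝ) ^ (s + Int.fract (τ (φ k))) = (q : ℝ) ^ h * (b : ℝ) ^ a * |ε (φ k)| := by
    rw [e4, Real.rpow_add (by positivity), Real.rpow_add (by positivity),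
      Real.rpow_mul (by positivity), Real.rpow_logb (by positivity) b1.ne' (by positivity),
      Real.rpow_logb (by positivity) b1.ne' (abs_pos.2 (h1 _)), Real.rpow_natCast,
      Real.rpow_natCast]
  show (((b : ℝ) ^ (s + Int.fract (τ (φ k))) : ℝ) : UnitAddCircle) ∈ D'
  rw [e5]
  rcases abs_choice (ε (φ k)) with e | e
  · rw [e]
    exact Or.inl (h3 h hh _ _)
  · rw [e, mul_neg, AddCircle.coe_neg]
    exact Or.inr (Set.neg_mem_neg.2 (h3 h hh _ _))

theorem null_avoid {b : ℕ} (hb : 2 ≤ b) {U : Set UnitAddCircle} (hU : IsOpen U)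
    (h : U.Nonempty) : IsClosed {z : UnitAddCircle | ∀ n : ℕ, b ^ n • z ∉ U} ∧
      volume {z : UnitAddCircle | ∀ n : ℕ, b ^ n • z ∉ U} = 0 := by
  have c : IsClosed {z : UnitAddCircle | ∀ n : ℕ, b ^ n • z ∉ U} := by
    rw [Set.ofPred_forall]
    exact isClosed_iInter fun n => hU.isClosed_compl.preimage (continuous_nsmul _)
  refine ⟨c, ?_⟩
  rcases (AddCircle.ergodic_nsmul (T := 1) (n := b) hb).ae_empty_or_univ_of_ae_le_preimage
    c.nullMeasurableSet (Eventually.of_forall fun z hz n => by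
      have := hz (n + 1)
      rwa [pow_succ, mul_smul] at this) with e | e
  · exact ae_eq_empty.1 e
  · refine absurd (measure_mono_null (fun z hz hz' => ?_) (ae_eq_univ.1 e)) (hU.measure_ne_zero _ h)
    exact hz' 0 (by simpa using hz)

theorem exists_lift (w : UnitAddCircle) : ∃ e : ℝ, (e : UnitAddCircle) = w ∧ |e| = ‖w‖ := by
  obtain ⟨x, rfl⟩ := QuotientAddGroup.mk_surjective w
  refine ⟨x - round x, ?_, UnitAddCircle.norm_eq.symm⟩
  have : (((round x : ℤ) : ℝ) : UnitAddCircle) = 0 :=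
    (AddCircle.coe_eq_zero_iff _).2 ⟨round x, by simp⟩
  rw [AddCircle.coe_sub, this, sub_zero]

/-- The recurrence lemma. -/
theorem ae_dense {b q : ℕ} (hb : 2 ≤ b) (hq : 2 ≤ q) (hi : ∀ m n : ℕ, 0 < n → b ^ m ≠ q ^ n)
    (μ : Measure UnitAddCircle) [IsFiniteMeasure μ]
    (hT : MeasurePreserving (fun x : UnitAddCircle => q • x) μ μ)
    (Φ : UnitAddCircle → Set UnitAddCircle) (h1 : ∀ y, ∀ z ∈ Φ y, b • z ∈ Φ y)
    (h2 : ∀ y, ∀ z ∈ Φ y, q • z ∈ Φ (q • y))
    (h3 : ∀ J, IsCompact J → MeasurableSet {y | ∃ z ∈ J, z ∈ Φ y}) :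
    ∀ᵐ y ∂μ, (∃ r, IsOfFinAddOrder r ∧ ∀ δ : ℝ, 0 < δ → ∃ z ∈ Φ y, z ≠ r ∧ dist z r < δ) →
      Dense (Φ y) := by
  obtain ⟨c, hc⟩ := TopologicalSpace.exists_dense_seq UnitAddCircle
  set E : ℕ × ℕ → Set UnitAddCircle := fun p =>
    {y | ∃ z ∈ Metric.closedBall (c p.1) (1 / ((p.2 : ℝ) + 1)), z ∈ Φ y}ᶜ with hE
  have a1 : ∀ (n : ℕ) y, ∀ z ∈ Φ y, b ^ n • z ∈ Φ y := fun n y => by
    induction n with
    | zero => simp
    | succ n ih => exact fun z hz => by rw [pow_succ', mul_smul]; exact h1 _ _ (ih z hz)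
  have a2 : ∀ (n : ℕ) y, ∀ z ∈ Φ y, q ^ n • z ∈ Φ (q ^ n • y) := by
    intro n y
    induction n with
    | zero => simp
    | succ n ih =>
      intro z hz
      rw [pow_succ', mul_smul, mul_smul]
      exact h2 _ _ (ih z hz)
  filter_upwards [ae_all_iff.2 fun p => ae_not_DZ μ hT (E := E p)
    (h3 _ (isCompact_closedBall _ _)).compl] with y hy ⟨r, r1, r2⟩
  rw [Metric.dense_iff]
  intro x δ hδ
  by_contra e
  obtain ⟨n, hn⟩ := exists_nat_one_div_lt (show 0 < δ / 2 by positivity)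
  obtain ⟨i, hi'⟩ := hc.exists_dist_lt x (show 0 < δ / 2 by positivity)
  refine hy (i, n) ?_ ?_
  · rintro ⟨z, z1, z2⟩
    refine e ⟨z, ?_, z2⟩
    rw [Metric.mem_closedBall] at z1
    rw [Metric.mem_ball]
    have := dist_triangle_right z x (c i)
    simp only at z1
    linarith
  obtain ⟨d1, d2⟩ := null_avoid hb (U := Metric.ball (c i) (1 / ((n : ℝ) + 1)))
    Metric.isOpen_ball (Metric.nonempty_ball.2 (by positivity))
  choose z z1 z2 z3 using fun k : ℕ => r2 (1 / ((k : ℝ) + 1)) (by positivity)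
  choose ε e1 e2 using fun k => exists_lift (z k - r)
  have fin := r1.finite_multiples
  refine DZ_dil hb hq hi (D := ⋃ f ∈ (AddSubmonoid.multiples r : Set UnitAddCircle),
    (fun w => w + f) ⁻¹' {z : UnitAddCircle | ∀ m : ℕ, b ^ m • z ∉
      Metric.ball (c i) (1 / ((n : ℝ) + 1))}) (fin.isClosed_biUnion fun f _ =>
      d1.preimage (continuous_add_const f)) ((measure_biUnion_null_iff fin.countable).2 fun f _ =>
      (measure_preimage_add_right _ _ _).trans d2) ε (fun k h0 => z2 k ?_) ?_ fun h hh a k => ?_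
  · rw [← sub_eq_zero, ← e1, h0, AddCircle.coe_zero]
  · rw [tendsto_zero_iff_abs_tendsto_zero]
    refine squeeze_zero (fun _ => abs_nonneg _) (fun k => ?_) tendsto_one_div_add_atTop_nhds_zero_nat
    rw [Function.comp, e2, ← dist_eq_norm]
    exact (z3 k).le
  · refine Set.mem_iUnion₂.2 ⟨(q ^ h * b ^ a) • r, ⟨_, rfl⟩, fun m hm => hh ⟨_,
      Metric.ball_subset_closedBall hm, ?_⟩⟩
    rw [smul_iterate_apply]
    refine a1 _ _ _ ?_
    have : (((q : ℝ) ^ h * (b : ℝ) ^ a * ε k : ℝ) : UnitAddCircle) + (q ^ h * b ^ a) • r =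
        q ^ h • b ^ a • z k := by
      rw [← mul_smul, ← sub_add_cancel (z k) r, smul_add, ← e1, ← AddCircle.coe_nsmul]
      simp
    simp only [this]
    exact a2 _ _ _ (a1 _ _ _ (z1 k))

end Pool.Agent.MP_60c1b5_an.H93
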