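import Mathlib
import Pool.Agent.MP_60c1b5_an.H93.Rec

set_option autoImplicit false

/-!
Almost every irrational point of a `×q` invariant measure has a dense `×b` orbit.
-/

namespace Pool.Agent.MP_60c1b5_an.H93

open Filter Topology MeasureTheory

/-- the orbit closure -/
def orb (b : ℕ) (x : UnitAddCircle) : Set UnitAddCircle :=
  closure (Set.range fun n : ℕ => b ^ n • x)

theorem orb_self (b : ℕ) (x : UnitAddCircle) : ∀ z ∈ orb b x, b • z ∈ orb b x := fun _ hz =>
  map_mem_closure (f := fun z : UnitAddCircle => b • z) (continuous_nsmul b) hz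
    (by rintro _ ⟨n, rfl⟩; exact ⟨n + 1, by simp only [pow_succ', mul_smul]⟩)

theorem orb_mul (b q : ℕ) (x : UnitAddCircle) : ∀ z ∈ orb b x, q • z ∈ orb b (q • x) :=
  fun _ hz => map_mem_closure (f := fun z : UnitAddCircle => q • z) (continuous_nsmul q) hz
    (by rintro _ ⟨n, rfl⟩; exact ⟨n, by simp only [smul_comm q]⟩)

theorem orb_pow (b u : ℕ) (x : UnitAddCircle) : ∀ z ∈ orb b x, b ^ u • z ∈ orb b x := by
  induction u with
  | zero => simp
  | succ n ih => exact fun z hz => by rw [pow_succ', mul_smul]; exact orb_self _ _ _ (ih z hz)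

theorem measurableSet_orb (b : ℕ) {P ι : Type} [TopologicalSpace P] [Finite ι] {C : Set P}
    (hC : IsCompact C) (hC' : IsClosed C) (g : ι → P → UnitAddCircle)
    (hg : ∀ j, Continuous (g j)) : MeasurableSet {x | ∃ p ∈ C, ∀ j, g j p ∈ orb b x} := by
  have e : {x | ∃ p ∈ C, ∀ j, g j p ∈ orb b x} = ⋂ m : ℕ, ⋃ p ∈ C, ⋂ j, ⋃ n : ℕ,
      {x : UnitAddCircle | dist (g j p) (b ^ n • x) < 1 / ((m : ℝ) + 1)} := by
    ext x
    simp only [Set.mem_iInter, Set.mem_iUnion, Set.mem_ofPred_eq, exists_prop]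
    constructor
    · rintro ⟨p, p1, p2⟩ m
      refine ⟨p, p1, fun j => ?_⟩
      obtain ⟨_, ⟨n, rfl⟩, h⟩ := Metric.mem_closure_iff.1 (p2 j) (1 / ((m : ℝ) + 1))
        (by positivity)
      exact ⟨n, h⟩
    · intro h
      have cl : ∀ m : ℕ, IsClosed (C ∩ ⋂ j, {p | Metric.infDist (g j p)
          (Set.range fun n : ℕ => b ^ n • x) ≤ 1 / ((m : ℝ) + 1)}) := fun m =>
        hC'.inter (isClosed_iInter fun j => isClosed_le
          ((Metric.continuous_infDist_pt _).comp (hg j)) continuous_const)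
      obtain ⟨p, hp⟩ := IsCompact.nonempty_iInter_of_sequence_nonempty_isCompact_isClosed _
        (fun m => Set.inter_subset_inter_right _ (Set.iInter_mono fun j p hp => by
          rw [Set.mem_ofPred_eq] at hp ⊢
          exact hp.trans (Nat.one_div_le_one_div (Nat.le_succ m))))
        (fun m => by
          obtain ⟨p, p1, p2⟩ := h m
          refine ⟨p, p1, Set.mem_iInter.2 fun j => ?_⟩
          obtain ⟨n, hn⟩ := p2 j
          exact (Metric.infDist_le_dist_of_mem (Set.mem_range_self n)).trans hn.le)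
        (hC.of_isClosed_subset (cl 0) Set.inter_subset_left) cl
      rw [Set.mem_iInter] at hp
      refine ⟨p, (hp 0).1, fun j => (Metric.mem_closure_iff_infDist_zero
        (Set.range_nonempty _)).2 (le_antisymm ?_ Metric.infDist_nonneg)⟩
      exact ge_of_tendsto' tendsto_one_div_add_atTop_nhds_zero_nat
        fun m => Set.mem_iInter.1 (hp m).2 j
  rw [e]
  exact MeasurableSet.iInter fun m => (isOpen_biUnion fun p _ => isOpen_iInter_of_finite fun j =>
    isOpen_iUnion fun n => isOpen_lt (continuous_const.dist (continuous_nsmul _))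
      continuous_const).measurableSet

/-- starting points of progressions inside the orbit closure -/
def prog (b : ℕ) (c : UnitAddCircle) (i : ℕ) (x : UnitAddCircle) : Set UnitAddCircle :=
  {z | ∀ j : Fin i, z + (j : ℕ) • c ∈ orb b x}

/-- differences of such points -/
def dif (b : ℕ) (c : UnitAddCircle) (i : ℕ) (x : UnitAddCircle) : Set UnitAddCircle :=
  (fun p : UnitAddCircle × UnitAddCircle => p.1 - p.2) '' (prog b c i x ×ˢ prog b c i x)

theorem prog_self {b u : ℕ} {c : UnitAddCircle} (hc : b ^ u • c = c) (i : ℕ) (x : UnitAddCircle) :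
    ∀ z ∈ prog b c i x, b ^ u • z ∈ prog b c i x := fun z hz j => by
  have := orb_pow b u x _ (hz j)
  rwa [smul_add, smul_comm _ (j : ℕ), hc] at this

theorem prog_mul {b q : ℕ} {c : UnitAddCircle} (hc : q • c = c) (i : ℕ) (x : UnitAddCircle) :
    ∀ z ∈ prog b c i x, q • z ∈ prog b c i (q • x) := fun z hz j => by
  have := orb_mul b q x _ (hz j)
  rwa [smul_add, smul_comm _ (j : ℕ), hc] at this

theorem isClosed_dif (b : ℕ) (c : UnitAddCircle) (i : ℕ) (x : UnitAddCircle) :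
    IsClosed (dif b c i x) := by
  have : IsClosed (prog b c i x) := by
    rw [prog, Set.ofPred_forall]
    exact isClosed_iInter fun j => isClosed_closure.preimage (continuous_add_const _)
  exact ((this.prod this).isCompact.image (continuous_fst.sub continuous_snd)).isClosed

theorem ae_dif {b q u : ℕ} (hb : 2 ≤ b) (hq : 2 ≤ q) (hi : ∀ m n : ℕ, 0 < n → b ^ m ≠ q ^ n)
    (hu : 0 < u) (μ : Measure UnitAddCircle) [IsFiniteMeasure μ]
    (hT : MeasurePreserving (fun x : UnitAddCircle => q • x) μ μ) {c : UnitAddCircle}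
    (c1 : b ^ u • c = c) (c2 : q ^ u • c = c) (i : ℕ) :
    ∀ᵐ x ∂μ, (∃ z ∈ prog b c i x, ¬ IsOfFinAddOrder z) → c ∈ dif b c i x := by
  have b2 : 2 ≤ b ^ u := hb.trans (Nat.le_self_pow hu.ne' b)
  have h := ae_dense (b := b ^ u) (q := q ^ u) b2 (hq.trans (Nat.le_self_pow hu.ne' q))
    (fun m n hn => by rw [← pow_mul, ← pow_mul]; exact hi _ _ (Nat.mul_pos hu hn)) μ
    (by simpa only [smul_iterate] using hT.iterate u) (dif b c i)
    (by
      rintro y _ ⟨p, ⟨p1, p2⟩, rfl⟩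
      exact ⟨(b ^ u • p.1, b ^ u • p.2), ⟨prog_self c1 _ _ _ p1, prog_self c1 _ _ _ p2⟩,
        (smul_sub _ _ _).symm⟩)
    (by
      rintro y _ ⟨p, ⟨p1, p2⟩, rfl⟩
      exact ⟨(q ^ u • p.1, q ^ u • p.2), ⟨prog_mul c2 _ _ _ p1, prog_mul c2 _ _ _ p2⟩,
        (smul_sub _ _ _).symm⟩)
    (fun J hJ => by
      have cl : IsClosed {p : UnitAddCircle × UnitAddCircle | p.1 - p.2 ∈ J} :=
        hJ.isClosed.preimage (continuous_fst.sub continuous_snd)
      convert measurableSet_orb b (ι := Fin i ⊕ Fin i) cl.isCompact cl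
        (Sum.elim (fun j p => p.1 + (j : ℕ) • c) fun j p => p.2 + (j : ℕ) • c)
        (by rintro (j | j) <;> simp only [Sum.elim_inl, Sum.elim_inr] <;> fun_prop) using 1
      ext y
      constructor
      · rintro ⟨_, z1, p, ⟨p1, p2⟩, rfl⟩
        exact ⟨p, z1, by rintro (j | j); exacts [p1 j, p2 j]⟩
      · rintro ⟨p, p1, p2⟩
        exact ⟨_, p1, p, ⟨fun j => p2 (.inl j), fun j => p2 (.inr j)⟩, rfl⟩)
  filter_upwards [h] with x hx ⟨z, z1, z2⟩
  rw [← (isClosed_dif b c i x).closure_eq]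
  refine hx ⟨0, IsOfFinAddOrder.zero, fun δ hδ => ?_⟩ c
  have a : ∀ n : ℕ, (b ^ u) ^ n • z ∈ prog b c i x := fun n => by
    induction n with
    | zero => simpa using z1
    | succ n ih => rw [pow_succ', mul_smul]; exact prog_self c1 _ _ _ ih
  obtain ⟨w, φ, hφ, t⟩ := CompactSpace.tendsto_subseq fun n : ℕ => (b ^ u) ^ n • z
  obtain ⟨k, hk⟩ := Metric.cauchySeq_iff'.1 t.cauchySeq δ hδ
  refine ⟨_, ⟨((b ^ u) ^ φ (k + 1) • z, (b ^ u) ^ φ k • z), ⟨a _, a _⟩, rfl⟩, fun e => z2 ?_, ?_⟩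
  · have l : (b ^ u) ^ φ k < (b ^ u) ^ φ (k + 1) :=
      Nat.pow_lt_pow_right b2 (hφ (Nat.lt_succ_self k))
    refine isOfFinAddOrder_iff_nsmul_eq_zero.2 ⟨_, Nat.sub_pos_of_lt l, ?_⟩
    rw [sub_nsmul _ l.le, ← sub_eq_add_neg]
    exact e
  · rw [dist_zero_right, ← dist_eq_norm]
    exact hk _ (Nat.le_succ k)

theorem fix_of_modEq {t a : ℕ} (ht : 0 < t) (h : a ≡ 1 [MOD t]) :
    a • (((1 : ℝ) / t : ℝ) : UnitAddCircle) = (((1 : ℝ) / t : ℝ) : UnitAddCircle) := by
  have : t • (((1 : ℝ) / t : ℝ) : UnitAddCircle) = 0 := by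
    rw [← AddCircle.coe_nsmul, nsmul_eq_mul, mul_one_div_cancel (by positivity)]
    exact AddCircle.coe_period 1
  rw [nsmul_eq_mod_nsmul a this, h, ← nsmul_eq_mod_nsmul 1 this, one_nsmul]

theorem exists_small {t : ℕ} (ht : 0 < t) (z : UnitAddCircle) :
    ∃ j ≤ t, ‖z + j • (((1 : ℝ) / t : ℝ) : UnitAddCircle)‖ ≤ 1 / t := by
  obtain ⟨x, rfl⟩ := QuotientAddGroup.mk_surjective z
  have t0 : (0 : ℝ) < t := by exact_mod_cast ht
  have f1 := Int.fract_nonneg x
  have f2 := Int.fract_lt_one x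
  have g0 : 0 ≤ (1 - Int.fract x) * t := by nlinarith
  have g1 := Nat.floor_le g0
  have g2 := Nat.lt_floor_add_one ((1 - Int.fract x) * t)
  set j := ⌊(1 - Int.fract x) * t⌋₊
  refine ⟨j, by exact_mod_cast (show (j : ℝ) ≤ t by nlinarith), ?_⟩
  have : (x : UnitAddCircle) + j • (((1 : ℝ) / t : ℝ) : UnitAddCircle) =
      (((j - (1 - Int.fract x) * t) / t : ℝ) : UnitAddCircle) := by
    rw [← AddCircle.coe_nsmul, ← AddCircle.coe_add, ← sub_eq_zero, ← AddCircle.coe_sub,
      AddCircle.coe_eq_zero_iff]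
    refine ⟨⌊x⌋ + 1, ?_⟩
    rw [Int.fract]
    simp only [zsmul_eq_mul, nsmul_eq_mul]
    push_cast
    field_simp
    ring
  rw [this]
  refine (QuotientAddGroup.norm_mk_le_norm).trans ?_
  rw [Real.norm_eq_abs, abs_div, abs_of_pos t0]
  exact div_le_div_of_nonneg_right (abs_le.2 ⟨by linarith, by linarith⟩) t0.le

/-- Almost every irrational point has a dense orbit. -/
theorem ae_dense_orbit {b q : ℕ} (hb : 2 ≤ b) (hq : 2 ≤ q)
    (hi : ∀ m n : ℕ, 0 < n → b ^ m ≠ q ^ n) (μ : Measure UnitAddCircle) [IsFiniteMeasure μ]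
    (hT : MeasurePreserving (fun x : UnitAddCircle => q • x) μ μ) :
    ∀ᵐ x ∂μ, ¬ IsOfFinAddOrder x → DenseRange fun n : ℕ => b ^ n • x := by
  have h1 := ae_dense hb hq hi μ hT (orb b) (orb_self b) (orb_mul b q) fun J hJ => by
    simpa using measurableSet_orb b (ι := Unit) hJ hJ.isClosed (fun _ p => p)
      fun _ => continuous_id
  have h2 : ∀ p : ℕ × ℕ, _ := fun p => ae_dif (u := Nat.totient (b * q * p.1 + 1)) hb hq hi
    (Nat.totient_pos.2 (Nat.succ_pos _)) μ hT
    (fix_of_modEq (Nat.succ_pos _) (Nat.ModEq.pow_totient (by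
      rw [mul_assoc]; simp)))
    (fix_of_modEq (Nat.succ_pos _) (Nat.ModEq.pow_totient (by
      rw [mul_comm b, mul_assoc]; simp))) p.2
  filter_upwards [h1, ae_all_iff.2 h2] with x a1 a2 a3
  have key : ∃ r ∈ orb b x, IsOfFinAddOrder r := by
    by_contra e
    push Not at e
    refine e 0 (isClosed_closure.closure_subset (Metric.mem_closure_iff.2 fun δ hδ => ?_))
      IsOfFinAddOrder.zero
    obtain ⟨N, hN⟩ := exists_nat_one_div_lt hδ
    set t := b * q * N + 1 with ht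
    set c : UnitAddCircle := (((1 : ℝ) / t : ℝ) : UnitAddCircle) with hc
    have a4 : ∀ i, (prog b c (i + 1) x).Nonempty := by
      intro i
      induction i with
      | zero => exact ⟨x, fun j => subset_closure ⟨0, by simp⟩⟩
      | succ i ih =>
        obtain ⟨z, hz⟩ := ih
        obtain ⟨p, ⟨p1, p2⟩, p3⟩ := a2 (N, i + 1) ⟨z, hz, e z (by simpa using hz 0)⟩
        refine ⟨p.2, fun j => ?_⟩
        refine Fin.cases (by simpa using p2 0) (fun j => ?_) j
        have := p1 j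
        rw [sub_eq_iff_eq_add'.1 p3] at this
        rw [Fin.val_succ, succ_nsmul', ← add_assoc]
        exact this
    obtain ⟨z, hz⟩ := a4 t
    obtain ⟨j, j1, j2⟩ := exists_small (t := t) (Nat.succ_pos _) z
    refine ⟨_, hz ⟨j, Nat.lt_succ_of_le j1⟩, ?_⟩
    rw [dist_comm, dist_zero_right]
    refine j2.trans_lt (lt_of_le_of_lt (one_div_le_one_div_of_le (by positivity) ?_) hN)
    exact_mod_cast Nat.succ_le_succ (Nat.le_mul_of_pos_left N (by positivity))
  obtain ⟨r, r1, r2⟩ := key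
  refine dense_closure.1 (a1 ⟨r, r2, fun δ hδ => ?_⟩)
  obtain ⟨_, ⟨n, rfl⟩, h⟩ := Metric.mem_closure_iff.1 r1 δ hδ
  refine ⟨_, subset_closure ⟨n, rfl⟩, fun e => a3 ?_, by rwa [dist_comm]⟩
  rw [← e] at r2
  exact r2.of_nsmul (by positivity)

theorem exists_indep (b : ℕ) : (∀ m n : ℕ, 0 < n → b ^ m ≠ 2 ^ n) ∨
    ∀ m n : ℕ, 0 < n → b ^ m ≠ 3 ^ n := by
  by_contra h
  push Not at h
  obtain ⟨⟨m, n, h1, h2⟩, m', n', h3, h4⟩ := h
  have a : 2 ∣ b := Nat.prime_two.dvd_of_dvd_pow (h2 ▸ dvd_pow_self 2 h1.ne')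
  rcases Nat.eq_zero_or_pos m' with rfl | h5
  · exact absurd h4 (by rw [pow_zero]; exact (Nat.one_lt_pow h3.ne' (by norm_num)).ne)
  · exact absurd (Nat.prime_two.dvd_of_dvd_pow (h4 ▸ dvd_pow a h5.ne')) (by norm_num)

end Pool.Agent.MP_60c1b5_an.H93
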